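import Pool.Agent.Helper228.NC.Defs

open MeasureTheory Filter Topology

namespace Pool.Agent.Helper228.NC
open Pool.Agent.Helper228.MM Pool.Agent.Helper228.GM Pool.Agent.Helper228.OP


theorem ns_append {m : ℕ} (i : Fin (m + 1)) (u v : Word m) :
    splits i (u ++ v) = ((splits i u).map fun z => (z.1, z.2 ++ v))
      ++ (splits i v).map fun z => (u ++ z.1, z.2) := by
  induction u with
  | nil => simp [splits]
  | cons a u ih =>
    rw [List.cons_append]
    simp only [splits]
    rw [ih]
    simp only [List.map_append, List.map_map, Function.comp_def, List.cons_append]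
    split_ifs <;> simp

theorem ns_mem {m : ℕ} (i : Fin (m + 1)) (w : Word m) : ∀ z ∈ splits i w, w = z.1 ++ i :: z.2 := by
  induction w with
  | nil =>
    intro z hz
    simp [splits] at hz
  | cons a w ih =>
    intro z hz
    simp only [splits, List.mem_append, List.mem_map] at hz
    rcases hz with hz | ⟨y, hy, rfl⟩
    · split_ifs at hz with h
      · rw [List.mem_singleton] at hz
        subst hz
        simp [h]
      · simp at hz
    · simp only [List.cons_append]
      rw [← ih y hy]

theorem ns_in {m : ℕ} (i : Fin (m + 1)) (u v : Word m) : (u, v) ∈ splits i (u ++ i :: v) := by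
  induction u with
  | nil => simp [splits]
  | cons a u ih =>
    simp only [List.cons_append, splits, List.mem_append, List.mem_map]
    exact Or.inr ⟨(u, v), ih, rfl⟩

theorem ns_nodup {m : ℕ} (i : Fin (m + 1)) (w : Word m) : (splits i w).Nodup := by
  induction w with
  | nil => simp [splits]
  | cons a w ih =>
    simp only [splits]
    rw [List.nodup_append']
    refine ⟨?_, ?_, ?_⟩
    · split_ifs <;> simp
    · apply ih.map
      intro x y h
      simp only [Prod.mk.injEq, List.cons.injEq, true_and] at h
      exact Prod.ext h.1 h.2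
    · intro z hz hz2
      rw [List.mem_map] at hz2
      obtain ⟨y, _, rfl⟩ := hz2
      split_ifs at hz with h
      · simp at hz
      · simp at hz

theorem n_splits {m : ℕ} (i : Fin (m + 1)) :
    (∀ u v : Word m, splits i (u ++ v) = ((splits i u).map fun z => (z.1, z.2 ++ v))
      ++ (splits i v).map fun z => (u ++ z.1, z.2)) ∧
    (∀ w : Word m, ∀ z ∈ splits i w, w = z.1 ++ i :: z.2) ∧
    (∀ u v : Word m, (u, v) ∈ splits i (u ++ i :: v)) ∧
    (∀ w : Word m, (splits i w).Nodup) :=
  ⟨ns_append i, ns_mem i, ns_in i, ns_nodup i⟩

end Pool.Agent.Helper228.NC
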