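import Pool.Agent.Helper228.NC.Defs
import Pool.Agent.Helper228.NC.P_n_splits

open MeasureTheory Filter Topology

namespace Pool.Agent.Helper228.NC
open Pool.Agent.Helper228.MM Pool.Agent.Helper228.GM Pool.Agent.Helper228.OP


theorem n_sd {m : ℕ} (τ : Word m → ℂ) (h : NCState m τ) (i : Fin (m + 1)) (a b p : Word m) :
    ((splits i p).map fun z => τ (a.reverse ++ z.1) * τ (b.reverse ++ z.2)).sum
      = (if i = 0 then τ ((a ++ 0 :: 0 :: 0 :: b).reverse ++ p)
            - 2 * τ ((a ++ 0 :: b).reverse ++ p)
          else 2 * τ ((a ++ i :: b).reverse ++ p))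
        - ((splits i a.reverse).map fun z => τ z.1 * τ ((z.2.reverse ++ b).reverse ++ p)).sum
        - ((splits i b.reverse).map fun z => τ z.2 * τ ((a ++ z.1.reverse).reverse ++ p)).sum := by
  have key : ((splits i (a.reverse ++ (p ++ b.reverse))).map fun z => τ z.1 * τ z.2).sum
      = (if i = 0 then τ ((a ++ 0 :: 0 :: 0 :: b).reverse ++ p)
            - 2 * τ ((a ++ 0 :: b).reverse ++ p)
          else 2 * τ ((a ++ i :: b).reverse ++ p)) := by
    have c1 : ∀ c : Word m, τ (c ++ (a.reverse ++ (p ++ b.reverse)))
        = τ (b.reverse ++ (c ++ (a.reverse ++ p))) := by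
      intro c
      rw [h.cyc b.reverse (c ++ (a.reverse ++ p))]
      congr 1
      simp only [List.append_assoc]
    split_ifs with hi
    · subst hi
      rw [h.sd0]
      have e1 := c1 [0, 0, 0]
      have e2 := c1 [0]
      simp only [List.cons_append, List.nil_append] at e1 e2
      rw [e1, e2]
      simp only [List.reverse_append, List.reverse_cons, List.append_assoc, List.cons_append,
        List.nil_append]
    · rw [h.sdi i hi]
      have e1 := c1 [i]
      simp only [List.cons_append, List.nil_append] at e1
      rw [e1]
      simp only [List.reverse_append, List.reverse_cons, List.append_assoc, List.cons_append,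
        List.nil_append]
  rw [(n_splits i).1, (n_splits i).1 p] at key
  simp only [List.map_append, List.map_map, List.sum_append] at key
  have t1 : ((splits i p).map fun z => τ (a.reverse ++ z.1) * τ (b.reverse ++ z.2))
      = ((splits i p).map ((fun z => τ z.1 * τ z.2) ∘ (fun z => (a.reverse ++ z.1, z.2)) ∘
        fun z => (z.1, z.2 ++ b.reverse))) := by
    apply List.map_congr_left
    intro z _
    simp only [Function.comp]
    rw [h.cyc z.2 b.reverse]
  have t2 : ((splits i a.reverse).map fun z => τ z.1 * τ ((z.2.reverse ++ b).reverse ++ p))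
      = ((splits i a.reverse).map ((fun z => τ z.1 * τ z.2) ∘
        (fun z => (z.1, z.2 ++ (p ++ b.reverse))))) := by
    apply List.map_congr_left
    intro z _
    simp only [Function.comp]
    have : τ ((z.2.reverse ++ b).reverse ++ p) = τ (z.2 ++ (p ++ b.reverse)) := by
      have := h.cyc b.reverse (z.2 ++ p)
      simp only [List.reverse_append, List.reverse_reverse, List.append_assoc] at this ⊢
      exact this
    rw [this]
  have t3 : ((splits i b.reverse).map fun z => τ z.2 * τ ((a ++ z.1.reverse).reverse ++ p))
      = ((splits i b.reverse).map ((fun z => τ z.1 * τ z.2) ∘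
        (fun z => (a.reverse ++ z.1, z.2)) ∘ fun z => (p ++ z.1, z.2))) := by
    apply List.map_congr_left
    intro z _
    simp only [Function.comp]
    have : τ ((a ++ z.1.reverse).reverse ++ p) = τ (a.reverse ++ (p ++ z.1)) := by
      have := h.cyc z.1 (a.reverse ++ p)
      simp only [List.reverse_append, List.reverse_reverse, List.append_assoc] at this ⊢
      exact this
    rw [this, mul_comm]
  rw [t1, t2, t3]
  simp only [Function.comp_def] at key ⊢
  linear_combination key

end Pool.Agent.Helper228.NC
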