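import Pool.Agent.Helper228.NC.Defs
import Pool.Agent.Helper228.NC.P_n_sd

open MeasureTheory Filter Topology

namespace Pool.Agent.Helper228.NC
open Pool.Agent.Helper228.MM Pool.Agent.Helper228.GM Pool.Agent.Helper228.OP


theorem n_adj_suml {α E : Type} [NormedAddCommGroup E] [InnerProductSpace ℂ E] (L : List α)
    (f : α → E) (y : E) : inner ℂ ((L.map f).sum) y = (L.map fun z => inner ℂ (f z) y).sum := by
  induction L with
  | nil => simp
  | cons a L ih => rw [List.map_cons, List.sum_cons, List.map_cons, List.sum_cons, inner_add_left, ih]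

theorem n_adj_sumr {α E : Type} [NormedAddCommGroup E] [InnerProductSpace ℂ E] (L : List α)
    (f : α → E) (y : E) : inner ℂ y ((L.map f).sum) = (L.map fun z => inner ℂ y (f z)).sum := by
  induction L with
  | nil => simp
  | cons a L ih => rw [List.map_cons, List.sum_cons, List.map_cons, List.sum_cons, inner_add_right, ih]

theorem n_adj {m : ℕ} (τ : Word m → ℂ) (h : NCState m τ) {E F : Type} [NormedAddCommGroup E]
    [InnerProductSpace ℂ E] [CompleteSpace E] [NormedAddCommGroup F] [InnerProductSpace ℂ F]
    (emb : Word m → E) (ten : Word m → Word m → F) (h1 : IsL2 τ emb) (h2 : IsL2Tensor τ ten)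
    (i : Fin (m + 1)) (a b : Word m) :
    ∃ v : E, ∀ p : Word m, inner ℂ v (emb p) = inner ℂ (ten a b) (dw ten i p) := by
  refine ⟨(if i = 0 then emb (a ++ 0 :: 0 :: 0 :: b) - (2 : ℂ) • emb (a ++ 0 :: b)
      else (2 : ℂ) • emb (a ++ i :: b))
    - ((splits i a.reverse).map fun z =>
        (starRingEnd ℂ) (τ z.1) • emb (z.2.reverse ++ b)).sum
    - ((splits i b.reverse).map fun z =>
        (starRingEnd ℂ) (τ z.2) • emb (a ++ z.1.reverse)).sum, ?_⟩
  intro p
  have hR : inner ℂ (ten a b) (dw ten i p) =
      ((splits i p).map fun z => τ (a.reverse ++ z.1) * τ (b.reverse ++ z.2)).sum := by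
    unfold dw
    rw [n_adj_sumr]
    congr 1
    apply List.map_congr_left
    intro z _
    exact h2.inner_ten a b z.1 z.2
  have hc2 : (starRingEnd ℂ) (2 : ℂ) = 2 := by
    apply Complex.ext <;> simp
  rw [hR, n_sd τ h i a b p, inner_sub_left, inner_sub_left, n_adj_suml, n_adj_suml]
  congr 1
  · congr 1
    · split_ifs with hi
      · rw [inner_sub_left, inner_smul_left, h1.inner_emb, h1.inner_emb, hc2]
      · rw [inner_smul_left, h1.inner_emb, hc2]
    · congr 1
      apply List.map_congr_left
      intro z _
      rw [inner_smul_left, h1.inner_emb, Complex.conj_conj]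
  · congr 1
    apply List.map_congr_left
    intro z _
    rw [inner_smul_left, h1.inner_emb, Complex.conj_conj]

end Pool.Agent.Helper228.NC
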