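import Pool.Agent.Helper228.NC.Defs
import Pool.Agent.Helper228.NC.P_n_sd

open MeasureTheory Filter Topology

namespace Pool.Agent.Helper228.NC
open Pool.Agent.Helper228.MM Pool.Agent.Helper228.GM Pool.Agent.Helper228.OP


private theorem j25285_inner_list {m : ℕ} {F : Type} [NormedAddCommGroup F]
    [InnerProductSpace ℂ F] (ten : Word m → Word m → F) (v : F) (l : List (Word m × Word m)) :
    inner ℂ v ((l.map fun z => ten z.1 z.2).sum) =
      (l.map fun z => inner ℂ v (ten z.1 z.2)).sum := by
  induction l with
  | nil => simp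
  | cons a l ih => simp only [List.map_cons, List.sum_cons, inner_add_right, ih]

theorem n_conj {m : ℕ} (τ : Word m → ℂ) (h : NCState m τ) {E F : Type} [NormedAddCommGroup E]
    [InnerProductSpace ℂ E] [CompleteSpace E] [NormedAddCommGroup F] [InnerProductSpace ℂ F]
    (emb : Word m → E) (ten : Word m → Word m → F) (h1 : IsL2 τ emb) (h2 : IsL2Tensor τ ten)
    (i : Fin (m + 1)) (p : Word m) :
    inner ℂ (conjVar emb i) (emb p) = inner ℂ (ten [] []) (dw ten i p) := by
  have hr : inner ℂ (ten [] []) (dw ten i p) =
      ((splits i p).map fun z => τ (([] : Word m).reverse ++ z.1) *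
        τ (([] : Word m).reverse ++ z.2)).sum := by
    unfold dw
    rw [j25285_inner_list]
    congr 1
    refine List.map_congr_left fun z _ => ?_
    exact h2.inner_ten [] [] z.1 z.2
  rw [hr, n_sd τ h i [] [] p]
  have hc2 : (starRingEnd ℂ) (2 : ℂ) = 2 := Complex.conj_ofNat 2
  unfold conjVar
  by_cases hi : i = 0
  · rw [if_pos hi, if_pos hi, inner_sub_left, inner_smul_left, h1.inner_emb, h1.inner_emb, hc2]
    simp [splits]
  · rw [if_neg hi, if_neg hi, inner_smul_left, h1.inner_emb, hc2]
    simp [splits]

end Pool.Agent.Helper228.NC
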