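import Pool.Agent.Helper228.NC.Defs

open MeasureTheory Filter Topology

namespace Pool.Agent.Helper228.NC
open Pool.Agent.Helper228.MM Pool.Agent.Helper228.GM Pool.Agent.Helper228.OP


theorem gns258 (ι : Type) (K : ι → ι → ℂ) (hH : ∀ u v, K v u = (starRingEnd ℂ) (K u v))
    (hp : ∀ c : ι →₀ ℂ, 0 ≤ (c.sum fun u a => c.sum fun v b =>
      (starRingEnd ℂ) a * b * K u v).re) :
    ∃ (H : Type) (_ : NormedAddCommGroup H) (_ : InnerProductSpace ℂ H) (_ : CompleteSpace H)
      (emb : ι → H), (∀ u v, inner ℂ (emb u) (emb v) = K u v) ∧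
      Dense (Submodule.span ℂ (Set.range emb) : Set H) := by
  let core : PreInnerProductSpace.Core ℂ (ι →₀ ℂ) :=
    { inner := fun f g => f.sum fun u a => g.sum fun v b => (starRingEnd ℂ) a * b * K u v
      conj_inner_symm := by
        intro x y
        show (starRingEnd ℂ) (y.sum fun u a => x.sum fun v b => (starRingEnd ℂ) a * b * K u v)
          = x.sum fun u a => y.sum fun v b => (starRingEnd ℂ) a * b * K u v
        unfold Finsupp.sum
        simp only [map_sum]
        rw [Finset.sum_comm]
        refine Finset.sum_congr rfl fun u _ => Finset.sum_congr rfl fun v _ => ?_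
        rw [map_mul, map_mul, Complex.conj_conj, hH u v, Complex.conj_conj]
        ring
      re_inner_nonneg := fun x => hp x
      add_left := by
        intro x y z
        show ((x + y).sum fun u a => z.sum fun v b => (starRingEnd ℂ) a * b * K u v)
          = (x.sum fun u a => z.sum fun v b => (starRingEnd ℂ) a * b * K u v)
            + (y.sum fun u a => z.sum fun v b => (starRingEnd ℂ) a * b * K u v)
        rw [Finsupp.sum_add_index'] <;> simp [← Finsupp.sum_add, add_mul]
      smul_left := by
        intro x y r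
        show ((r • x).sum fun u a => y.sum fun v b => (starRingEnd ℂ) a * b * K u v)
          = (starRingEnd ℂ) r * (x.sum fun u a => y.sum fun v b => (starRingEnd ℂ) a * b * K u v)
        rw [Finsupp.sum_smul_index] <;> simp [Finsupp.mul_sum, ← mul_assoc] }
  letI i1 : SeminormedAddCommGroup (ι →₀ ℂ) :=
    @InnerProductSpace.Core.toSeminormedAddCommGroup ℂ (ι →₀ ℂ) _ _ _ core
  letI i2 : InnerProductSpace ℂ (ι →₀ ℂ) := InnerProductSpace.ofCore core
  refine ⟨UniformSpace.Completion (ι →₀ ℂ), inferInstance, inferInstance, inferInstance,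
    fun u => ((Finsupp.single u 1 : ι →₀ ℂ) : UniformSpace.Completion (ι →₀ ℂ)), ?_, ?_⟩
  · intro u v
    rw [UniformSpace.Completion.inner_coe]
    show ((Finsupp.single u (1:ℂ)).sum fun u a => (Finsupp.single v (1:ℂ)).sum fun v b =>
      (starRingEnd ℂ) a * b * K u v) = K u v
    simp
  · refine Dense.mono ?_ (UniformSpace.Completion.denseRange_coe (α := ι →₀ ℂ))
    rintro _ ⟨f, rfl⟩
    induction f using Finsupp.induction_linear with
    | zero =>
      have : ((0 : ι →₀ ℂ) : UniformSpace.Completion (ι →₀ ℂ)) = 0 := rfl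
      rw [this]
      exact Submodule.zero_mem _
    | add f g hf hg =>
      have : ((f + g : ι →₀ ℂ) : UniformSpace.Completion (ι →₀ ℂ))
          = (f : UniformSpace.Completion (ι →₀ ℂ)) + (g : UniformSpace.Completion (ι →₀ ℂ)) :=
        UniformSpace.Completion.coe_add f g
      rw [this]
      exact Submodule.add_mem _ hf hg
    | single u a =>
      have e0 : (Finsupp.single u a : ι →₀ ℂ) = a • (Finsupp.single u 1 : ι →₀ ℂ) := by
        rw [Finsupp.smul_single, smul_eq_mul, mul_one]
      have : ((Finsupp.single u a : ι →₀ ℂ) : UniformSpace.Completion (ι →₀ ℂ))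
          = a • ((Finsupp.single u 1 : ι →₀ ℂ) : UniformSpace.Completion (ι →₀ ℂ)) := by
        rw [e0]
        exact UniformSpace.Completion.coe_smul a _
      rw [this]
      exact Submodule.smul_mem _ _ (Submodule.subset_span ⟨u, rfl⟩)

theorem n_gns (m : ℕ) (τ : Word m → ℂ) (h : NCState m τ) :
    ∃ (H : Type) (_ : NormedAddCommGroup H) (_ : InnerProductSpace ℂ H) (_ : CompleteSpace H)
      (emb : Word m → H), IsL2 τ emb := by
  obtain ⟨H, i1, i2, i3, emb, h1, h2⟩ := gns258 (Word m) (fun u v => τ (u.reverse ++ v))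
    (fun u v => by
      have := h.rev (u.reverse ++ v)
      rw [List.reverse_append, List.reverse_reverse] at this
      exact this)
    (fun c => h.pos c.support c)
  exact ⟨H, i1, i2, i3, emb, h1, h2⟩

end Pool.Agent.Helper228.NC
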