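import Pool.Agent.Helper228.NC.Defs

open MeasureTheory Filter Topology

namespace Pool.Agent.Helper228.NC
open Pool.Agent.Helper228.MM Pool.Agent.Helper228.GM Pool.Agent.Helper228.OP

theorem n_abs {E F : Type} [NormedAddCommGroup E]
    [InnerProductSpace ℂ E] [CompleteSpace E] [NormedAddCommGroup F] [InnerProductSpace ℂ F]
    {X : Type} (e : X → E) (g : X → F) (he : Dense (Submodule.span ℂ (Set.range e) : Set E))
    (B : Set F) (hB : Dense (Submodule.span ℂ B : Set F))
    (h : ∀ b ∈ B, ∃ v : E, ∀ x, inner ℂ v (e x) = inner ℂ b (g x)) :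
    ∃ T : E →ₗ.[ℂ] F, T.domain = Submodule.span ℂ (Set.range e) ∧
      (∀ x, (e x, g x) ∈ T.graph) ∧ T.IsClosable ∧
      ∀ (b : F) (v : E), (∀ x, inner ℂ v (e x) = inner ℂ b (g x)) → (b, v) ∈ T.adjoint.graph := by
  set G : Submodule ℂ (E × F) := Submodule.span ℂ (Set.range fun x => (e x, g x)) with hG
  -- identity on the closure
  have key : ∀ (b : F) (v : E), (∀ x, inner ℂ v (e x) = inner ℂ b (g x)) →
      ∀ y ∈ G.topologicalClosure, inner ℂ v y.1 = inner ℂ b y.2 := by
    intro b v hv
    have h1 : ∀ y ∈ G, inner ℂ v y.1 = inner ℂ b y.2 := by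
      intro y hy
      induction hy using Submodule.span_induction with
      | mem y hy => obtain ⟨x, rfl⟩ := hy; exact hv x
      | zero => simp
      | add a b _ _ ha hb => simp [inner_add_right, ha, hb]
      | smul c a _ ha => simp [inner_smul_right, ha]
    have hcl : IsClosed {y : E × F | inner ℂ v y.1 = inner ℂ b y.2} :=
      isClosed_eq (by fun_prop) (by fun_prop)
    intro y hy
    have : closure (G : Set (E × F)) ⊆ {y : E × F | inner ℂ v y.1 = inner ℂ b y.2} :=
      closure_minimal h1 hcl
    exact this hy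
  have hfun : ∀ y ∈ G.topologicalClosure, y.1 = 0 → y.2 = 0 := by
    intro y hy h0
    have h2 : ∀ b ∈ Submodule.span ℂ B, inner ℂ b y.2 = 0 := by
      intro b hb
      induction hb using Submodule.span_induction with
      | mem b hb =>
        obtain ⟨v, hv⟩ := h b hb
        rw [← key b v hv y hy, h0, inner_zero_right]
      | zero => simp
      | add a b _ _ ha hb => simp [inner_add_left, ha, hb]
      | smul c a _ ha => simp [inner_smul_left, ha]
    exact hB.eq_zero_of_inner_right (𝕜 := ℂ) h2
  have hle : G ≤ G.topologicalClosure := G.le_topologicalClosure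
  have hTg : G.toLinearPMap.graph = G :=
    Submodule.toLinearPMap_graph_eq G fun y hy h0 => hfun y (hle hy) h0
  have hdom : G.toLinearPMap.domain = Submodule.span ℂ (Set.range e) := by
    rw [Submodule.toLinearPMap_domain, hG, Submodule.map_span]
    congr 1
    ext y
    simp
  refine ⟨G.toLinearPMap, hdom, ?_, ?_, ?_⟩
  · intro x
    rw [hTg]
    exact Submodule.subset_span ⟨x, rfl⟩
  · refine ⟨G.topologicalClosure.toLinearPMap, ?_⟩
    rw [hTg, Submodule.toLinearPMap_graph_eq _ hfun]
  · intro b v hv
    have hd : Dense (G.toLinearPMap.domain : Set E) := by rw [hdom]; exact he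
    have hk : ∀ x : G.toLinearPMap.domain, inner ℂ v (x : E) = inner ℂ b (G.toLinearPMap x) := by
      intro x
      have hx : ((x : E), G.toLinearPMap x) ∈ G := by
        have := G.toLinearPMap.mem_graph x
        rwa [hTg] at this
      exact key b v hv _ (hle hx)
    have hb : b ∈ G.toLinearPMap.adjoint.domain :=
      LinearPMap.mem_adjoint_domain_of_exists (T := G.toLinearPMap) b ⟨v, hk⟩
    have hval : G.toLinearPMap.adjoint ⟨b, hb⟩ = v :=
      LinearPMap.adjoint_apply_eq hd ⟨b, hb⟩ hk
    have := G.toLinearPMap.adjoint.mem_graph ⟨b, hb⟩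
    rw [hval] at this
    exact this

end Pool.Agent.Helper228.NC
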