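import Pool.Agent.Helper228.NC.Defs
import Pool.Agent.Helper228.NC.P_n_adj
import Pool.Agent.Helper228.NC.P_n_conj
import Pool.Agent.Helper228.NC.P_n_abs

open MeasureTheory Filter Topology

namespace Pool.Agent.Helper228.NC
open Pool.Agent.Helper228.MM Pool.Agent.Helper228.GM Pool.Agent.Helper228.OP


theorem n_ops {m : ℕ} (τ : Word m → ℂ) (h : NCState m τ) {E F : Type} [NormedAddCommGroup E]
    [InnerProductSpace ℂ E] [CompleteSpace E] [NormedAddCommGroup F] [InnerProductSpace ℂ F]
    (emb : Word m → E) (ten : Word m → Word m → F) (h1 : IsL2 τ emb) (h2 : IsL2Tensor τ ten) :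
    (∃ d : Fin (m + 1) → (E →ₗ.[ℂ] F), ∀ i, IsDiffQuot emb ten i (d i) ∧ (d i).IsClosable ∧
      (ten [] [], conjVar emb i) ∈ (d i).adjoint.graph) ∧
    ∃ grad : E →ₗ.[ℂ] PiLp 2 (fun _ : Fin (m + 1) => F), IsGrad emb ten grad ∧
      grad.IsClosable := by
  refine ⟨?_, ?_⟩
  · have key : ∀ i : Fin (m + 1), ∃ T : E →ₗ.[ℂ] F, IsDiffQuot emb ten i T ∧ T.IsClosable ∧
        (ten [] [], conjVar emb i) ∈ T.adjoint.graph := by
      intro i
      obtain ⟨T, hT1, hT2, hT3, hT4⟩ := n_abs emb (fun w => dw ten i w) h1.dense_emb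
        {k | ∃ u v, ten u v = k} h2.dense_ten (by
          rintro b ⟨u, v, rfl⟩
          exact n_adj τ h emb ten h1 h2 i u v)
      exact ⟨T, ⟨hT1, hT2⟩, hT3, hT4 _ _ (n_conj τ h emb ten h1 h2 i)⟩
    choose d hd using key
    exact ⟨d, hd⟩
  · let ι : Fin (m + 1) → (F →L[ℂ] PiLp 2 (fun _ : Fin (m + 1) => F)) := fun i =>
      ((PiLp.continuousLinearEquiv 2 ℂ (fun _ : Fin (m + 1) => F)).symm :
        (Fin (m + 1) → F) →L[ℂ] PiLp 2 (fun _ : Fin (m + 1) => F)).comp
        (ContinuousLinearMap.single ℂ (fun _ : Fin (m + 1) => F) i)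
    have hι : ∀ i k, ι i k = WithLp.toLp 2 (Pi.single i k) := fun i k => rfl
    have hdense : Dense (Submodule.span ℂ {k | ∃ i a b, ι i (ten a b) = k} :
        Set (PiLp 2 (fun _ : Fin (m + 1) => F))) := by
      set S := Submodule.span ℂ {k | ∃ i a b, ι i (ten a b) = k} with hS
      have hK : ∀ i k, ι i k ∈ S.topologicalClosure := by
        intro i
        have hcl : IsClosed ((S.topologicalClosure.comap (ι i).toLinearMap : Submodule ℂ F) : Set F) :=
          (S.isClosed_topologicalClosure).preimage (ι i).continuous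
        have hsub : Submodule.span ℂ {k | ∃ u v, ten u v = k} ≤
            S.topologicalClosure.comap (ι i).toLinearMap := by
          rw [Submodule.span_le]
          rintro _ ⟨u, v, rfl⟩
          exact S.le_topologicalClosure (Submodule.subset_span ⟨i, u, v, rfl⟩)
        have htop := h2.dense_ten
        intro k
        have hk : k ∈ closure ((Submodule.span ℂ {k | ∃ u v, ten u v = k} : Submodule ℂ F) : Set F) :=
          htop k
        exact closure_minimal hsub hcl hk
      intro v
      have hv : v = ∑ i, ι i (v i) := by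
        ext j
        simp only [hι, WithLp.ofLp_sum, Finset.sum_apply]
        rw [Finset.sum_eq_single j]
        · simp
        · intro b _ hb
          rw [Pi.single_eq_of_ne (Ne.symm hb)]
        · simp
      have : v ∈ S.topologicalClosure := by
        rw [hv]
        exact Submodule.sum_mem _ (fun i _ => hK i _)
      exact this
    obtain ⟨T, hT1, hT2, hT3, -⟩ := n_abs emb
      (fun w => (WithLp.toLp 2 fun i => dw ten i w : PiLp 2 (fun _ : Fin (m + 1) => F)))
      h1.dense_emb {k | ∃ i a b, ι i (ten a b) = k} hdense (by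
        rintro _ ⟨i, a, b, rfl⟩
        obtain ⟨v, hv⟩ := n_adj τ h emb ten h1 h2 i a b
        refine ⟨v, fun p => ?_⟩
        rw [hv p, hι, PiLp.inner_apply, Finset.sum_eq_single i]
        · simp
        · intro j _ hj
          simp only [Pi.single_eq_of_ne hj, inner_zero_left]
        · simp)
    exact ⟨T, ⟨hT1, hT2⟩, hT3⟩

end Pool.Agent.Helper228.NC
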