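import Pool.Agent.Helper228.NC.Defs

open MeasureTheory Filter Topology

namespace Pool.Agent.Helper228.NC
open Pool.Agent.Helper228.MM Pool.Agent.Helper228.GM Pool.Agent.Helper228.OP


theorem n_ext_dense {m : ℕ} {τ : Word m → ℂ} {E : Type} [NormedAddCommGroup E]
    [InnerProductSpace ℂ E] [CompleteSpace E] (emb : Word m → E) (h1 : IsL2 τ emb) (e : E)
    (h : ∀ u, inner ℂ (emb u) e = 0) : e = 0 := by
  refine h1.dense_emb.eq_zero_of_inner_right (𝕜 := ℂ) ?_
  intro v hv
  refine Submodule.span_induction (p := fun x _ => inner ℂ x e = 0) ?_ ?_ ?_ ?_ hv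
  · rintro _ ⟨u, rfl⟩
    exact h u
  · exact inner_zero_left _
  · intro x y _ _ hx hy
    rw [inner_add_left, hx, hy, add_zero]
  · intro a x _ hx
    rw [inner_smul_left, hx, mul_zero]

theorem n_tenindep {m : ℕ} (τ : Word m → ℂ) {E F : Type} [NormedAddCommGroup E]
    [InnerProductSpace ℂ E] [CompleteSpace E] [NormedAddCommGroup F] [InnerProductSpace ℂ F]
    (emb : Word m → E) (ten : Word m → Word m → F) (h1 : IsL2 τ emb) (h2 : IsL2Tensor τ ten)
    (s t : Set (Word m)) (hs : LinearIndepOn ℂ emb s) (ht : LinearIndepOn ℂ emb t) :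
    LinearIndepOn ℂ (fun z : Word m × Word m => ten z.1 z.2) (s ×ˢ t) := by
  classical
  rw [linearIndepOn_iff'] at hs ht ⊢
  intro W g hW h0
  have hU : ((W.image Prod.fst : Finset (Word m)) : Set (Word m)) ⊆ s := by
    intro u hu
    obtain ⟨z, hz, rfl⟩ := Finset.mem_image.1 (Finset.mem_coe.1 hu)
    exact (hW hz).1
  have hV : ((W.image Prod.snd : Finset (Word m)) : Set (Word m)) ⊆ t := by
    intro u hu
    obtain ⟨z, hz, rfl⟩ := Finset.mem_image.1 (Finset.mem_coe.1 hu)
    exact (hW hz).2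
  set U := W.image Prod.fst with hUdef
  set V := W.image Prod.snd with hVdef
  let G : Word m × Word m → ℂ := fun z => if z ∈ W then g z else 0
  have hsub : W ⊆ U ×ˢ V := by
    intro z hz
    exact Finset.mem_product.2 ⟨Finset.mem_image_of_mem _ hz, Finset.mem_image_of_mem _ hz⟩
  have hG : ∀ f : Word m × Word m → ℂ, ∑ z ∈ W, g z * f z =
      ∑ u ∈ U, ∑ v ∈ V, G (u, v) * f (u, v) := by
    intro f
    rw [← Finset.sum_product (s := U) (t := V) (f := fun z => G z * f z)]
    rw [← Finset.sum_subset hsub (f := fun z => G z * f z)]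
    · refine Finset.sum_congr rfl fun z hz => ?_
      change g z * f z = (if z ∈ W then g z else 0) * f z
      rw [if_pos hz]
    · intro z _ hz
      change (if z ∈ W then g z else 0) * f z = 0
      rw [if_neg hz, zero_mul]
  have key : ∀ u' v', ∑ u ∈ U, ∑ v ∈ V, G (u, v) *
      (inner ℂ (emb u') (emb u) * inner ℂ (emb v') (emb v)) = 0 := by
    intro u' v'
    rw [← hG (fun z => inner ℂ (emb u') (emb z.1) * inner ℂ (emb v') (emb z.2))]
    have e : inner ℂ (ten u' v') (∑ z ∈ W, g z • ten z.1 z.2) = (0 : ℂ) := by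
      rw [h0, inner_zero_right]
    rw [inner_sum] at e
    rw [← e]
    refine Finset.sum_congr rfl fun z _ => ?_
    rw [inner_smul_right, h2.inner_ten, h1.inner_emb, h1.inner_emb]
  have step1 : ∀ v', ∀ u ∈ U, ∑ v ∈ V, G (u, v) * inner ℂ (emb v') (emb v) = 0 := by
    intro v'
    refine hs U (fun u => ∑ v ∈ V, G (u, v) * inner ℂ (emb v') (emb v)) hU ?_
    refine n_ext_dense emb h1 _ fun u' => ?_
    rw [inner_sum, ← key u' v']
    refine Finset.sum_congr rfl fun u _ => ?_
    rw [inner_smul_right, Finset.sum_mul]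
    refine Finset.sum_congr rfl fun v _ => ?_
    ring
  have step2 : ∀ u ∈ U, ∀ v ∈ V, G (u, v) = 0 := by
    intro u hu
    refine ht V (fun v => G (u, v)) hV ?_
    refine n_ext_dense emb h1 _ fun v' => ?_
    rw [inner_sum, ← step1 v' u hu]
    refine Finset.sum_congr rfl fun v _ => ?_
    rw [inner_smul_right]
  intro z hz
  have h3 := step2 z.1 (Finset.mem_image_of_mem _ hz) z.2 (Finset.mem_image_of_mem _ hz)
  change (if (z.1, z.2) ∈ W then g (z.1, z.2) else 0) = 0 at h3
  rw [if_pos hz] at h3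
  exact h3

end Pool.Agent.Helper228.NC
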