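import Pool.Agent.Helper228.NC.Defs
import Pool.Agent.Helper228.NC.P_n_splits
import Pool.Agent.Helper228.NC.P_n_ops
import Pool.Agent.Helper228.NC.P_n_tenindep

open MeasureTheory Filter Topology

namespace Pool.Agent.Helper228.NC
open Pool.Agent.Helper228.MM Pool.Agent.Helper228.GM Pool.Agent.Helper228.OP


theorem ni_last {m : ℕ} (τ : Word m → ℂ) (h : NCState m τ) {E : Type} [NormedAddCommGroup E]
    [InnerProductSpace ℂ E] [CompleteSpace E]
    (emb : Word m → E) (h1 : IsL2 τ emb) (c : Word m →₀ ℂ) (hc : ∀ w, w ≠ [] → c w = 0)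
    (h0 : Finsupp.linearCombination ℂ emb c = 0) : c = 0 := by
  classical
  have e : c = Finsupp.single [] (c []) := by
    ext w
    by_cases hw : w = []
    · subst hw; simp
    · rw [Finsupp.single_apply, if_neg (Ne.symm hw), hc w hw]
  have hne : emb [] ≠ 0 := by
    intro h'
    have h2 := h1.inner_emb [] []
    rw [h', inner_zero_left] at h2
    simp only [List.reverse_nil, List.append_nil] at h2
    rw [h.one] at h2
    exact zero_ne_one h2
  rw [e, Finsupp.linearCombination_single] at h0
  have h3 := (smul_eq_zero.1 h0).resolve_right hne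
  rw [e, h3, Finsupp.single_zero]

theorem ni_splits {m : ℕ} (i : Fin (m + 1)) (a : ℂ) (w U V : Word m) :
    (((splits i w).map fun z => Finsupp.single z a).sum : (Word m × Word m) →₀ ℂ) (U, V) =
      if w = U ++ i :: V then a else 0 := by
  classical
  obtain ⟨-, hs2, hs3, hs4⟩ := n_splits (m := m) i
  have key : ∀ l : List (Word m × Word m), l.Nodup →
      (((l.map fun z => Finsupp.single z a).sum : (Word m × Word m) →₀ ℂ) (U, V)) =
        if (U, V) ∈ l then a else 0 := by
    intro l
    induction l with
    | nil => intro _; simp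
    | cons z l ih =>
      intro hn
      rw [List.nodup_cons] at hn
      rw [List.map_cons, List.sum_cons, Finsupp.add_apply, ih hn.2, Finsupp.single_apply]
      by_cases hz : z = (U, V)
      · subst hz
        simp [hn.1]
      · have hz' : ¬ (U, V) = z := fun h => hz h.symm
        simp [hz, hz']
  rw [key _ (hs4 w)]
  by_cases hw : w = U ++ i :: V
  · subst hw
    rw [if_pos (hs3 U V), if_pos rfl]
  · rw [if_neg hw, if_neg]
    intro hmem
    exact hw (hs2 w _ hmem)

theorem ni_main {m : ℕ} (τ : Word m → ℂ) (h : NCState m τ) {E F : Type} [NormedAddCommGroup E]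
    [InnerProductSpace ℂ E] [CompleteSpace E] [NormedAddCommGroup F] [InnerProductSpace ℂ F]
    (emb : Word m → E) (ten : Word m → Word m → F) (h1 : IsL2 τ emb) (h2 : IsL2Tensor τ ten)
    (N : ℕ) : ∀ c : Word m →₀ ℂ, (∀ w, c w ≠ 0 → w.length ≤ N) →
      Finsupp.linearCombination ℂ emb c = 0 → c = 0 := by
  classical
  induction N with
  | zero =>
    intro c hc h0
    refine ni_last τ h emb h1 c (fun w hw => ?_) h0
    by_contra hne
    have := hc w hne
    exact hw (List.length_eq_zero_iff.1 (Nat.le_zero.1 this))
  | succ N ih =>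
    intro c hc h0
    have hind : LinearIndepOn ℂ emb {w : Word m | w.length ≤ N} := by
      rw [linearIndepOn_iff]
      intro l hl hl0
      refine ih l (fun w hw => ?_) hl0
      exact (Finsupp.mem_supported _ _).1 hl (Finsupp.mem_support_iff.2 hw)
    have htens := n_tenindep τ emb ten h1 h2 _ _ hind hind
    rw [linearIndepOn_iff] at htens
    obtain ⟨⟨d, hd⟩, -⟩ := n_ops τ h emb ten h1 h2
    refine ni_last τ h emb h1 c (fun w hw => ?_) h0
    obtain ⟨i, V, rfl⟩ := List.exists_cons_of_ne_nil hw
    have hg : (Finsupp.linearCombination ℂ emb c, c.sum fun w a => a • dw ten i w) ∈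
        (d i).graph := by
      have e : (Finsupp.linearCombination ℂ emb c, c.sum fun w a => a • dw ten i w) =
          ∑ w ∈ c.support, c w • (emb w, dw ten i w) := by
        apply Prod.ext
        · rw [Prod.fst_sum, Finsupp.linearCombination_apply]
          rfl
        · rw [Prod.snd_sum]
          rfl
      rw [e]
      exact Submodule.sum_mem _ (fun w _ => Submodule.smul_mem _ _ ((hd i).1.word w))
    have hz : (c.sum fun w a => a • dw ten i w) = 0 :=
      LinearPMap.graph_fst_eq_zero_snd _ hg h0
    let C : (Word m × Word m) →₀ ℂ :=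
      c.sum fun w a => ((splits i w).map fun z => Finsupp.single z a).sum
    have hC0 : Finsupp.linearCombination ℂ (fun z : Word m × Word m => ten z.1 z.2) C = 0 := by
      rw [← hz]
      show Finsupp.linearCombination ℂ (fun z : Word m × Word m => ten z.1 z.2)
        (∑ w ∈ c.support, ((splits i w).map fun z => Finsupp.single z (c w)).sum) =
        ∑ w ∈ c.support, c w • dw ten i w
      rw [map_sum]
      refine Finset.sum_congr rfl fun w _ => ?_
      rw [map_list_sum, dw, List.smul_sum, List.map_map, List.map_map]
      congr 1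
      refine List.map_congr_left fun z _ => ?_
      simp
    have hCv : ∀ U V, C (U, V) = c (U ++ i :: V) := by
      intro U V
      show (∑ w ∈ c.support, ((splits i w).map fun z => Finsupp.single z (c w)).sum :
        (Word m × Word m) →₀ ℂ) (U, V) = _
      rw [Finsupp.finsetSum_apply]
      simp only [ni_splits]
      rw [Finset.sum_ite_eq' c.support (U ++ i :: V) (fun w => c w)]
      by_cases hm : U ++ i :: V ∈ c.support
      · rw [if_pos hm]
      · rw [if_neg hm]
        exact (Finsupp.notMem_support_iff.1 hm).symm
    have hCs : C ∈ Finsupp.supported ℂ ℂ ({w : Word m | w.length ≤ N} ×ˢ {w : Word m | w.length ≤ N}) := by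
      rw [Finsupp.mem_supported]
      rintro ⟨U, V⟩ hUV
      have h3 : C (U, V) ≠ 0 := Finsupp.mem_support_iff.1 hUV
      rw [hCv] at h3
      have h4 := hc _ h3
      rw [List.length_append, List.length_cons] at h4
      exact ⟨by show U.length ≤ N; omega, by show V.length ≤ N; omega⟩
    have hCz := htens C hCs hC0
    have := hCv [] V
    rw [hCz] at this
    simpa using this.symm

theorem n_indep {m : ℕ} (τ : Word m → ℂ) (h : NCState m τ) {E F : Type} [NormedAddCommGroup E]
    [InnerProductSpace ℂ E] [CompleteSpace E] [NormedAddCommGroup F] [InnerProductSpace ℂ F]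
    (emb : Word m → E) (ten : Word m → Word m → F) (h1 : IsL2 τ emb) (h2 : IsL2Tensor τ ten) :
    LinearIndependent ℂ emb := by
  rw [linearIndependent_iff]
  intro c h0
  refine ni_main τ h emb ten h1 h2 (c.support.sup List.length) c (fun w hw => ?_) h0
  exact Finset.le_sup (f := List.length) (Finsupp.mem_support_iff.2 hw)

end Pool.Agent.Helper228.NC
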