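import Pool.Agent.Helper228.NC.Defs

open MeasureTheory Filter Topology

namespace Pool.Agent.Helper228.NC
open Pool.Agent.Helper228.MM Pool.Agent.Helper228.GM Pool.Agent.Helper228.OP


theorem n_phi_a1 {E E' : Type*} [NormedAddCommGroup E] [InnerProductSpace ℂ E]
    [NormedAddCommGroup E'] [InnerProductSpace ℂ E'] (f : ℕ → E) (g : ℕ → E')
    (h : ∀ k l, inner ℂ (f k) (f l) = inner ℂ (g k) (g l)) (p q : Polynomial ℂ) :
    inner ℂ (p.sum fun k a => a • f k) (q.sum fun k a => a • f k) =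
      inner ℂ (p.sum fun k a => a • g k) (q.sum fun k a => a • g k) := by
  simp only [Polynomial.sum_def, sum_inner, inner_sum, inner_smul_left, inner_smul_right, h]

theorem n_phi_a2 {V : Type*} [AddCommGroup V] [Module ℂ V] (L : Polynomial ℂ →ₗ[ℂ] V)
    (p : Polynomial ℂ) : L p = p.sum fun k a => a • L (Polynomial.X ^ k) := by
  conv_lhs => rw [← Polynomial.sum_monomial_eq p]
  rw [Polynomial.sum_def, Polynomial.sum_def, map_sum]
  refine Finset.sum_congr rfl fun k _ => ?_
  rw [← Polynomial.smul_X_eq_monomial, map_smul]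

theorem n_phi_a3 {m : ℕ} (k : ℕ) : splits (0 : Fin (m + 1)) (List.replicate k 0) =
    (List.range k).map fun l => (List.replicate l 0, List.replicate (k - 1 - l) 0) := by
  induction k with
  | zero => simp [splits]
  | succ k ih =>
    rw [List.replicate_succ, splits, ih, List.range_succ_eq_map, List.map_cons, List.map_map,
      List.map_map]
    simp only [if_true, List.singleton_append, List.replicate_zero, Nat.add_sub_cancel,
      Nat.sub_zero, List.cons.injEq, true_and]
    refine List.map_congr_left fun l _ => ?_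
    simp only [Function.comp, List.replicate_succ, Prod.mk.injEq, true_and]
    congr 1
    omega

theorem n_phi_a4 {m : ℕ} (i : Fin (m + 1)) (hi : i ≠ 0) (k : ℕ) :
    splits i (List.replicate k 0) = [] := by
  induction k with
  | zero => simp [splits]
  | succ k ih =>
    rw [List.replicate_succ, splits, ih]
    simp [hi.symm]

theorem n_phi_a5 {V : Type*} [AddCommMonoid V] (f : ℕ → V) (k : ℕ) :
    ((List.range k).map f).sum = ∑ l ∈ Finset.range k, f l := by
  induction k with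
  | zero => simp
  | succ k ih => rw [List.range_succ, List.map_append, List.sum_append, ih,
      Finset.sum_range_succ]; simp

theorem n_phi_a6 {m : ℕ} {F : Type} [NormedAddCommGroup F] [InnerProductSpace ℂ F]
    (ten : Word m → Word m → F) (k : ℕ) : dw ten 0 (List.replicate k 0) =
    ∑ l ∈ Finset.range k, ten (List.replicate l 0) (List.replicate (k - 1 - l) 0) := by
  unfold dw
  rw [n_phi_a3, List.map_map]
  exact n_phi_a5 _ k

theorem n_phi_a7 (k l : ℕ) : inner ℂ (OP.emb (Polynomial.X ^ k)) (OP.emb (Polynomial.X ^ l)) =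
    ((MM.mom (k + l) : ℝ) : ℂ) := by
  rw [L2.inner_def]
  unfold MM.mom
  rw [← integral_complex_ofReal]
  refine integral_congr_ae ?_
  have e1 := MemLp.coeFn_toLp (memLp_cont (g := fun x : ℝ => (Polynomial.X ^ k : Polynomial ℂ).eval (x : ℂ)) (by fun_prop))
  have e2 := MemLp.coeFn_toLp (memLp_cont (g := fun x : ℝ => (Polynomial.X ^ l : Polynomial ℂ).eval (x : ℂ)) (by fun_prop))
  filter_upwards [e1, e2] with x h1 h2
  have h1' : (OP.emb (Polynomial.X ^ k) : HH) x = ((x : ℂ)) ^ k := by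
    refine Eq.trans h1 ?_
    simp
  have h2' : (OP.emb (Polynomial.X ^ l) : HH) x = ((x : ℂ)) ^ l := by
    refine Eq.trans h2 ?_
    simp
  rw [h1', h2', RCLike.inner_apply]
  simp only [map_pow, Complex.conj_ofReal]
  push_cast
  ring

theorem n_phi_a8 (k : ℕ) (z : ℝ × ℝ) : dqFun (Polynomial.X ^ k) z =
    ∑ l ∈ Finset.range k, (z.1 : ℂ) ^ l * (z.2 : ℂ) ^ (k - 1 - l) := by
  unfold dqFun
  rw [← Polynomial.monomial_one_right_eq_X_pow, Polynomial.sum_monomial_index _ _ (by simp)]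
  simp

theorem n_phi_a9 (a b : ℕ) :
    ∫ z : ℝ × ℝ, ((z.1 : ℂ) ^ a * (z.2 : ℂ) ^ b) ∂(rho.prod rho) =
      ((MM.mom a : ℝ) : ℂ) * ((MM.mom b : ℝ) : ℂ) := by
  rw [integral_prod_mul (fun x : ℝ => (x : ℂ) ^ a) (fun y : ℝ => (y : ℂ) ^ b)]
  unfold MM.mom
  rw [← integral_complex_ofReal, ← integral_complex_ofReal]
  push_cast
  rfl

theorem n_phi_a10 (k l : ℕ) : inner ℂ (OP.dq (Polynomial.X ^ k)) (OP.dq (Polynomial.X ^ l)) =
    ∑ i ∈ Finset.range k, ∑ j ∈ Finset.range l,
      ((MM.mom (i + j) : ℝ) : ℂ) * ((MM.mom (k - 1 - i + (l - 1 - j)) : ℝ) : ℂ) := by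
  rw [L2.inner_def]
  have e1 := MemLp.coeFn_toLp (memLp_cont2 (dqFun_cont (Polynomial.X ^ k)))
  have e2 := MemLp.coeFn_toLp (memLp_cont2 (dqFun_cont (Polynomial.X ^ l)))
  have e3 : ∀ᵐ z ∂(rho.prod rho), inner ℂ ((OP.dq (Polynomial.X ^ k) : KK) z)
      ((OP.dq (Polynomial.X ^ l) : KK) z) = ∑ i ∈ Finset.range k, ∑ j ∈ Finset.range l,
      (z.1 : ℂ) ^ (i + j) * (z.2 : ℂ) ^ (k - 1 - i + (l - 1 - j)) := by
    filter_upwards [e1, e2] with z h1 h2
    have h1' : (OP.dq (Polynomial.X ^ k) : KK) z = dqFun (Polynomial.X ^ k) z := h1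
    have h2' : (OP.dq (Polynomial.X ^ l) : KK) z = dqFun (Polynomial.X ^ l) z := h2
    rw [h1', h2', n_phi_a8, n_phi_a8, RCLike.inner_apply]
    rw [mul_comm, map_sum, Finset.sum_mul_sum]
    refine Finset.sum_congr rfl fun i _ => Finset.sum_congr rfl fun j _ => ?_
    simp only [map_mul, map_pow, Complex.conj_ofReal]
    ring
  rw [integral_congr_ae e3]
  have hint : ∀ a b : ℕ, Integrable (fun z : ℝ × ℝ => (z.1 : ℂ) ^ a * (z.2 : ℂ) ^ b)
      (rho.prod rho) := fun a b =>
    (memLp_cont2 (g := fun z : ℝ × ℝ => (z.1 : ℂ) ^ a * (z.2 : ℂ) ^ b)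
      (by fun_prop)).integrable (by norm_num)
  rw [integral_finsetSum _ fun i _ => integrable_finsetSum _ fun j _ => hint _ _]
  refine Finset.sum_congr rfl fun i _ => ?_
  rw [integral_finsetSum _ fun j _ => hint _ _]
  exact Finset.sum_congr rfl fun j _ => n_phi_a9 _ _

theorem n_phi {m : ℕ} (τ : Word m → ℂ) (h : NCState m τ) {E F : Type} [NormedAddCommGroup E]
    [InnerProductSpace ℂ E] [CompleteSpace E] [NormedAddCommGroup F] [InnerProductSpace ℂ F]
    (emb : Word m → E) (ten : Word m → Word m → F) (h1 : IsL2 τ emb) (h2 : IsL2Tensor τ ten)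
    (p q : Polynomial ℂ) :
    inner ℂ (p.sum fun k a => a • emb (List.replicate k 0))
        (q.sum fun k a => a • emb (List.replicate k 0)) = inner ℂ (OP.emb p) (OP.emb q) ∧
    inner ℂ (p.sum fun k a => a • dw ten 0 (List.replicate k 0))
        (q.sum fun k a => a • dw ten 0 (List.replicate k 0)) = inner ℂ (OP.dq p) (OP.dq q) ∧
    (∀ i : Fin (m + 1), i ≠ 0 → ∀ k, dw ten i (List.replicate k 0) = 0) := by
  have hm : ∀ k l : ℕ, τ ((List.replicate k (0 : Fin (m + 1))).reverse ++ List.replicate l 0) =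
      ((MM.mom (k + l) : ℝ) : ℂ) := fun k l => by
    rw [List.reverse_replicate, List.replicate_append_replicate, h.mom]
  refine ⟨?_, ?_, ?_⟩
  · rw [n_phi_a2 OP.emb p, n_phi_a2 OP.emb q]
    refine n_phi_a1 _ _ (fun k l => ?_) p q
    rw [h1.inner_emb, n_phi_a7, hm]
  · rw [n_phi_a2 OP.dq p, n_phi_a2 OP.dq q]
    refine n_phi_a1 _ _ (fun k l => ?_) p q
    rw [n_phi_a10, n_phi_a6, n_phi_a6, sum_inner]
    refine Finset.sum_congr rfl fun i _ => ?_
    rw [inner_sum]
    refine Finset.sum_congr rfl fun j _ => ?_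
    rw [h2.inner_ten, hm, hm]
  · intro i hi k
    unfold dw
    rw [n_phi_a4 i hi]
    simp

end Pool.Agent.Helper228.NC
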