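import Pool.Agent.Helper228.NC.Defs

open MeasureTheory Filter Topology

namespace Pool.Agent.Helper228.NC
open Pool.Agent.Helper228.MM Pool.Agent.Helper228.GM Pool.Agent.Helper228.OP


theorem n_sum_lower_fa {E F : Type}
    [NormedAddCommGroup E] [InnerProductSpace ℂ E] [CompleteSpace E] [NormedAddCommGroup F]
    [InnerProductSpace ℂ F] [CompleteSpace F] {T : E →ₗ.[ℂ] F}
    (hd : Dense (T.domain : Set E)) (hc : T.IsClosable) {y : E} {l : F}
    (hyl : (y, l) ∈ T.closure.graph) {k : F} {z : E} (hkz : (k, z) ∈ T.adjoint.graph) :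
    inner ℂ z y = inner ℂ k l := by
  rw [← hc.graph_closure_eq_closure_graph] at hyl
  have hfa := T.adjoint_isFormalAdjoint hd
  have hcl : IsClosed {p : E × F | inner ℂ z p.1 = inner ℂ k p.2} :=
    isClosed_eq (continuous_const.inner continuous_fst) (continuous_const.inner continuous_snd)
  have hsub : (T.graph : Set (E × F)) ⊆ {p : E × F | inner ℂ z p.1 = inner ℂ k p.2} := by
    rintro ⟨a, b⟩ hab
    rw [SetLike.mem_coe, LinearPMap.mem_graph_iff] at hab
    rw [LinearPMap.mem_graph_iff] at hkz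
    obtain ⟨a', ha1, ha2⟩ := hab
    obtain ⟨k', hk1, hk2⟩ := hkz
    simp only at ha1 ha2 hk1 hk2
    have := hfa k' a'
    rw [hk2, ha2, ha1, hk1] at this
    exact this
  exact closure_minimal hsub hcl hyl

theorem n_sum_lower {m : ℕ} {E F : Type}
    [NormedAddCommGroup E] [InnerProductSpace ℂ E] [CompleteSpace E] [NormedAddCommGroup F]
    [InnerProductSpace ℂ F] [CompleteSpace F]
    (d : Fin (m + 1) → (E →ₗ.[ℂ] F)) (hd : ∀ i, Dense ((d i).domain : Set E) ∧ (d i).IsClosable)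
    (R : E →L[ℂ] E) (hR : R.IsPositive) (hr : ∀ v, LapSum d (R v) (v - R v))
    (u : E) (k : F) (h0 : (u, k) ∈ (d 0).closure.graph)
    (hi : ∀ i : Fin (m + 1), i ≠ 0 → (u, (0 : F)) ∈ (d i).closure.graph) :
    ‖R‖ ≤ 1 ∧
    ‖u‖ ^ 2 ≤ (inner ℂ (R u) u).re + ‖k‖ * Real.sqrt (inner ℂ (R u) u).re := by
  have key : ∀ v, ∃ (κ : Fin (m + 1) → F) (z : Fin (m + 1) → E),
      (∀ i, (R v, κ i) ∈ (d i).closure.graph ∧ (κ i, z i) ∈ (d i).adjoint.graph) ∧
      v - R v = ∑ i, z i ∧ ‖R v‖ ^ 2 + ∑ i, ‖κ i‖ ^ 2 = (inner ℂ v (R v)).re := by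
    intro v
    obtain ⟨κ, z, h1, h2⟩ := hr v
    refine ⟨κ, z, h1, h2, ?_⟩
    have e1 : inner ℂ (v - R v) (R v) = ∑ i, inner ℂ (κ i) (κ i) := by
      rw [h2, sum_inner]
      exact Finset.sum_congr rfl fun i _ => n_sum_lower_fa (hd i).1 (hd i).2 (h1 i).1 (h1 i).2
    have e2 := congrArg Complex.re e1
    rw [inner_sub_left, Complex.sub_re, Complex.re_sum] at e2
    have e3 : ∀ i, (inner ℂ (κ i) (κ i)).re = ‖κ i‖ ^ 2 := by
      intro i
      have := inner_self_eq_norm_sq (𝕜 := ℂ) (κ i)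
      simpa using this
    have e4 : (inner ℂ (R v) (R v)).re = ‖R v‖ ^ 2 := by
      have := inner_self_eq_norm_sq (𝕜 := ℂ) (R v)
      simpa using this
    rw [e4] at e2
    simp only [e3] at e2
    linarith
  constructor
  · refine ContinuousLinearMap.opNorm_le_bound _ zero_le_one fun v => ?_
    rw [one_mul]
    obtain ⟨κ, z, h1, h2, h3⟩ := key v
    have h4 : 0 ≤ ∑ i, ‖κ i‖ ^ 2 := Finset.sum_nonneg fun i _ => by positivity
    have h5 : (inner ℂ v (R v)).re ≤ ‖v‖ * ‖R v‖ :=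
      le_trans (Complex.re_le_norm _) (norm_inner_le_norm v (R v))
    by_contra hcon
    push Not at hcon
    have h6 : 0 ≤ ‖v‖ := norm_nonneg v
    nlinarith [norm_nonneg (R v)]
  · obtain ⟨κ, z, h1, h2, h3⟩ := key u
    have h4 : ‖κ 0‖ ^ 2 ≤ ∑ i, ‖κ i‖ ^ 2 :=
      Finset.single_le_sum (f := fun i => ‖κ i‖ ^ 2) (fun i _ => by positivity)
        (Finset.mem_univ (0 : Fin (m + 1)))
    have h5 : (inner ℂ u (R u)).re = (inner ℂ (R u) u).re := by
      rw [← inner_conj_symm u (R u), Complex.conj_re]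
    rw [h5] at h3
    have h6 : ‖κ 0‖ ≤ Real.sqrt (inner ℂ (R u) u).re := by
      refine Real.le_sqrt_of_sq_le ?_
      nlinarith [sq_nonneg ‖R u‖]
    have e1 : inner ℂ (u - R u) u = inner ℂ (κ 0) k := by
      rw [h2, sum_inner, Finset.sum_eq_single (0 : Fin (m + 1))]
      · exact n_sum_lower_fa (hd 0).1 (hd 0).2 h0 (h1 0).2
      · intro i _ hi0
        rw [n_sum_lower_fa (hd i).1 (hd i).2 (hi i hi0) (h1 i).2, inner_zero_right]
      · intro h
        exact absurd (Finset.mem_univ _) h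
    have e2 := congrArg Complex.re e1
    rw [inner_sub_left, Complex.sub_re] at e2
    have e4 : (inner ℂ u u).re = ‖u‖ ^ 2 := by
      have := inner_self_eq_norm_sq (𝕜 := ℂ) u
      simpa using this
    have e5 : (inner ℂ (κ 0) k).re ≤ ‖κ 0‖ * ‖k‖ :=
      le_trans (Complex.re_le_norm _) (norm_inner_le_norm _ _)
    have e6 : ‖κ 0‖ * ‖k‖ ≤ Real.sqrt (inner ℂ (R u) u).re * ‖k‖ :=
      mul_le_mul_of_nonneg_right h6 (norm_nonneg k)
    rw [e4] at e2
    nlinarith

end Pool.Agent.Helper228.NC
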