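import Pool.Agent.Helper228.NC.Defs

open MeasureTheory Filter Topology

namespace Pool.Agent.Helper228.NC
open Pool.Agent.Helper228.MM Pool.Agent.Helper228.GM Pool.Agent.Helper228.OP


theorem n_tensor {m : ℕ} (τ : Word m → ℂ) {E : Type} [NormedAddCommGroup E]
    [InnerProductSpace ℂ E] [CompleteSpace E] (emb : Word m → E) (h : IsL2 τ emb) :
    ∃ (K : Type) (_ : NormedAddCommGroup K) (_ : InnerProductSpace ℂ K) (_ : CompleteSpace K)
      (ten : Word m → Word m → K), IsL2Tensor τ ten := by
  let K := UniformSpace.Completion (TensorProduct ℂ E E)
  let J : (TensorProduct ℂ E E) →L[ℂ] K := UniformSpace.Completion.toComplL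
  refine ⟨K, inferInstance, inferInstance, inferInstance,
    fun u v => J (TensorProduct.tmul ℂ (emb u) (emb v)), ?_, ?_⟩
  · intro u v u' v'
    show inner ℂ ((TensorProduct.tmul ℂ (emb u) (emb v) : TensorProduct ℂ E E) : K)
      ((TensorProduct.tmul ℂ (emb u') (emb v') : TensorProduct ℂ E E) : K) = _
    rw [UniformSpace.Completion.inner_coe, TensorProduct.inner_tmul, h.inner_emb, h.inner_emb]
  · set S : Submodule ℂ K := Submodule.span ℂ
      {k | ∃ u v, J (TensorProduct.tmul ℂ (emb u) (emb v)) = k} with hS
    have hE : (Submodule.span ℂ (Set.range emb)).topologicalClosure = ⊤ :=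
      (Submodule.dense_iff_topologicalClosure_eq_top).1 h.dense_emb
    have hcl : IsClosed (S.topologicalClosure : Set K) := S.isClosed_topologicalClosure
    have key1 : ∀ (v : Word m) (a : E), J (TensorProduct.tmul ℂ a (emb v)) ∈ S.topologicalClosure := by
      intro v a
      let f : E →ₗ[ℂ] K := J.toLinearMap.comp ((TensorProduct.mk ℂ E E).flip (emb v))
      have hf : Continuous f := by
        apply J.continuous.comp
        exact TensorProduct.continuous_tmul.comp (Continuous.prodMk_left (emb v))
      have h1 : Submodule.span ℂ (Set.range emb) ≤ S.topologicalClosure.comap f := by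
        rw [Submodule.span_le]
        rintro _ ⟨u, rfl⟩
        exact S.le_topologicalClosure (Submodule.subset_span ⟨u, v, rfl⟩)
      have h2 : IsClosed ((S.topologicalClosure.comap f : Submodule ℂ E) : Set E) := hcl.preimage hf
      have h3 := Submodule.topologicalClosure_minimal _ h1 h2
      rw [hE] at h3
      exact h3 (Submodule.mem_top (x := a))
    have key2 : ∀ (a b : E), J (TensorProduct.tmul ℂ a b) ∈ S.topologicalClosure := by
      intro a b
      let f : E →ₗ[ℂ] K := J.toLinearMap.comp ((TensorProduct.mk ℂ E E) a)
      have hf : Continuous f := by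
        apply J.continuous.comp
        exact TensorProduct.continuous_tmul.comp (Continuous.prodMk_right a)
      have h1 : Submodule.span ℂ (Set.range emb) ≤ S.topologicalClosure.comap f := by
        rw [Submodule.span_le]
        rintro _ ⟨v, rfl⟩
        exact key1 v a
      have h2 : IsClosed ((S.topologicalClosure.comap f : Submodule ℂ E) : Set E) := hcl.preimage hf
      have h3 := Submodule.topologicalClosure_minimal _ h1 h2
      rw [hE] at h3
      exact h3 (Submodule.mem_top (x := b))
    have key3 : ∀ z : TensorProduct ℂ E E, J z ∈ S.topologicalClosure := by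
      intro z
      induction z using TensorProduct.induction_on with
      | zero => rw [map_zero]; exact Submodule.zero_mem _
      | tmul a b => exact key2 a b
      | add x y hx hy => rw [map_add]; exact Submodule.add_mem _ hx hy
    have hden : DenseRange J := UniformSpace.Completion.denseRange_coe
    have hcl2 : S.topologicalClosure = ⊤ := by
      rw [eq_top_iff]
      intro y _
      have hr : Set.range J ⊆ (S.topologicalClosure : Set K) := by
        rintro _ ⟨z, rfl⟩
        exact key3 z
      exact closure_minimal hr hcl (hden y)
    exact (Submodule.dense_iff_topologicalClosure_eq_top).2 hcl2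

end Pool.Agent.Helper228.NC
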