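import Pool.Agent.Helper228.NC.Defs
import Pool.Agent.Helper228.OP.P_del_apply

open MeasureTheory Filter Topology

namespace Pool.Agent.Helper228.NC
open Pool.Agent.Helper228.MM Pool.Agent.Helper228.GM Pool.Agent.Helper228.OP

theorem o_apply (p : Polynomial ℂ) :
    ∃ h : OP.emb p ∈ OP.del.domain, OP.del ⟨OP.emb p, h⟩ = OP.dq p := OP.del_apply p

end Pool.Agent.Helper228.NC
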