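import Pool.Agent.Helper228.NC.Defs
import Pool.Agent.Helper228.OP.P_emb_dense

open MeasureTheory Filter Topology

namespace Pool.Agent.Helper228.NC
open Pool.Agent.Helper228.MM Pool.Agent.Helper228.GM Pool.Agent.Helper228.OP

theorem o_dense : Dense ((LinearMap.range OP.emb : Submodule ℂ HH) : Set HH) := OP.emb_dense

end Pool.Agent.Helper228.NC
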