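import Pool.Agent.Helper228.NC.P_n_abs
import Pool.Agent.Helper228.NC.P_n_adj
import Pool.Agent.Helper228.NC.P_n_conj
import Pool.Agent.Helper228.NC.P_n_gns
import Pool.Agent.Helper228.NC.P_n_indep
import Pool.Agent.Helper228.NC.P_n_ops
import Pool.Agent.Helper228.NC.P_n_phi
import Pool.Agent.Helper228.NC.P_n_sd
import Pool.Agent.Helper228.NC.P_n_splits
import Pool.Agent.Helper228.NC.P_n_sum_lower
import Pool.Agent.Helper228.NC.P_n_tenindep
import Pool.Agent.Helper228.NC.P_n_tensor
import Pool.Agent.Helper228.NC.P_n_transfer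
import Pool.Agent.Helper228.NC.P_o_apply
import Pool.Agent.Helper228.NC.P_o_dense
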