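import Mathlib
import Pool.Agent.Helper228.MM.Defs
import Pool.Agent.Helper228.OP.Defs
import Pool.Agent.Helper228.GM.Defs

open MeasureTheory Filter Topology

namespace Pool.Agent.Helper228.NC

open Pool.Agent.Helper228.MM Pool.Agent.Helper228.GM Pool.Agent.Helper228.OP

section abstract

variable {m : ℕ} {E F : Type} [NormedAddCommGroup E] [InnerProductSpace ℂ E] [CompleteSpace E]
  [NormedAddCommGroup F] [InnerProductSpace ℂ F]

/-- The Hilbert space `E` is `L²(M,τ)`: `emb w` is the monomial `w(a)`, `⟨u, v⟩ = τ(u* v)`. -/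
structure IsL2 (τ : Word m → ℂ) (emb : Word m → E) : Prop where
  inner_emb : ∀ u v, inner ℂ (emb u) (emb v) = τ (u.reverse ++ v)
  dense_emb : Dense (Submodule.span ℂ (Set.range emb) : Set E)

/-- The Hilbert space `F` is `L²(M,τ) ⊗ L²(M,τ)`: `ten u v` is `u(a) ⊗ v(a)`. -/
structure IsL2Tensor (τ : Word m → ℂ) (ten : Word m → Word m → F) : Prop where
  inner_ten : ∀ u v u' v',
    inner ℂ (ten u v) (ten u' v') = τ (u.reverse ++ u') * τ (v.reverse ++ v')
  dense_ten : Dense (Submodule.span ℂ {k | ∃ u v, ten u v = k} : Set F)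

/-- `∂_i w = ∑_{w = u i v} u ⊗ v`. -/
def dw (ten : Word m → Word m → F) (i : Fin (m + 1)) (w : Word m) : F :=
  ((splits i w).map fun z => ten z.1 z.2).sum

/-- `del` is the free difference quotient `∂_i`, with domain the noncommutative polynomials. -/
structure IsDiffQuot (emb : Word m → E) (ten : Word m → Word m → F) (i : Fin (m + 1))
    (del : E →ₗ.[ℂ] F) : Prop where
  domain : del.domain = Submodule.span ℂ (Set.range emb)
  word : ∀ w, (emb w, dw ten i w) ∈ del.graph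

/-- `grad = (∂_0, …, ∂_m)` with domain the noncommutative polynomials. -/
structure IsGrad (emb : Word m → E) (ten : Word m → Word m → F)
    (grad : E →ₗ.[ℂ] PiLp 2 (fun _ : Fin (m + 1) => F)) : Prop where
  domain : grad.domain = Submodule.span ℂ (Set.range emb)
  word : ∀ w, (emb w, WithLp.toLp 2 fun i => dw ten i w) ∈ grad.graph

/-- `T* T̄ u = w`. -/
def Lap (T : E →ₗ.[ℂ] F) (u w : E) : Prop :=
  ∃ k : F, (u, k) ∈ T.closure.graph ∧ (k, w) ∈ T.adjoint.graph

/-- `∑_i ∂_i* ∂̄_i u = w` (operator sum). -/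
def LapSum (d : Fin (m + 1) → (E →ₗ.[ℂ] F)) (u w : E) : Prop :=
  ∃ (k : Fin (m + 1) → F) (z : Fin (m + 1) → E),
    (∀ i, (u, k i) ∈ (d i).closure.graph ∧ (k i, z i) ∈ (d i).adjoint.graph) ∧ w = ∑ i, z i

/-- `R = (1 + Δ)⁻¹` for the operator `Δ` with graph `L`. -/
structure Resolvent (L : E → E → Prop) (R : E →L[ℂ] E) : Prop where
  pos : R.IsPositive
  right : ∀ v, L (R v) (v - R v)
  left : ∀ u w, L u w → R (u + w) = u

/-- `S s`, `s > 0`, is the strongly continuous semigroup generated by `-Δ`, `Δ` with graph `L`. -/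
structure HeatSemigroup (L : E → E → Prop) (S : ℝ → E →L[ℂ] E) : Prop where
  mul : ∀ s t : ℝ, 0 < s → 0 < t → ∀ v, S (s + t) v = S s (S t v)
  cont : ∀ v, Tendsto (fun s : ℝ => S s v) (𝓝[>] 0) (𝓝 v)
  deriv : ∀ s : ℝ, 0 < s → ∀ u w, L u w →
    Tendsto (fun r : ℝ => ((r - s)⁻¹ : ℂ) • (S r u - S s u)) (𝓝[≠] s) (𝓝 (-(S s w)))

/-- The conjugate variable `J_i = D_i P`: `a_0^3 - 2 a_0` for `i = 0` and `2 a_i` otherwise. -/
noncomputable def conjVar (emb : Word m → E) (i : Fin (m + 1)) : E :=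
  if i = 0 then emb [0, 0, 0] - (2 : ℂ) • emb [0] else (2 : ℂ) • emb [i]

end abstract

end Pool.Agent.Helper228.NC
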