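import Pool.Agent.Helper228.NC.Defs
import Pool.Agent.Helper228.NC.P_o_dense
import Pool.Agent.Helper228.NC.P_o_apply
import Pool.Agent.Helper228.NC.P_n_phi

open MeasureTheory Filter Topology

namespace Pool.Agent.Helper228.NC
open Pool.Agent.Helper228.MM Pool.Agent.Helper228.GM Pool.Agent.Helper228.OP


/-- linear map on polynomials from the values on powers -/
noncomputable def n_transfer_lin {V : Type} [AddCommGroup V] [Module ℂ V] (v : ℕ → V) :
    Polynomial ℂ →ₗ[ℂ] V where
  toFun p := p.sum fun k a => a • v k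
  map_add' p q := Polynomial.sum_add_index p q _ (by simp) (fun k a b => add_smul a b _)
  map_smul' c p := by
    simp only [RingHom.id_apply]
    rw [Polynomial.sum_smul_index p c _ (by simp), Polynomial.sum_def, Polynomial.sum_def,
      Finset.smul_sum]
    exact Finset.sum_congr rfl fun k _ => mul_smul _ _ _

theorem n_transfer_lin_mem {E V : Type} [AddCommGroup E] [Module ℂ E] [AddCommGroup V]
    [Module ℂ V] (G : Submodule ℂ (E × V)) (e : ℕ → E) (v : ℕ → V) (hG : ∀ k, (e k, v k) ∈ G)
    (p : Polynomial ℂ) : (n_transfer_lin e p, n_transfer_lin v p) ∈ G := by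
  have h1 : (n_transfer_lin e p, n_transfer_lin v p) =
      ∑ k ∈ p.support, p.coeff k • (e k, v k) := by
    apply Prod.ext
    · rw [Prod.fst_sum]
      simp only [n_transfer_lin, LinearMap.coe_mk, AddHom.coe_mk, Polynomial.sum_def, Prod.smul_fst]
    · rw [Prod.snd_sum]
      simp only [n_transfer_lin, LinearMap.coe_mk, AddHom.coe_mk, Polynomial.sum_def, Prod.smul_snd]
  rw [h1]
  exact Submodule.sum_mem _ fun k _ => Submodule.smul_mem _ _ (hG k)

/-- the first coordinate embedding -/
noncomputable def n_transfer_iota (m : ℕ) (F : Type) [NormedAddCommGroup F]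
    [InnerProductSpace ℂ F] : F →ₗ[ℂ] PiLp 2 (fun _ : Fin (m + 1) => F) where
  toFun k' := WithLp.toLp 2 fun i => if i = 0 then k' else 0
  map_add' a b := by
    ext i
    by_cases hi : i = 0 <;> simp [hi]
  map_smul' c a := by
    ext i
    by_cases hi : i = 0 <;> simp [hi]

theorem n_transfer_iota_cont (m : ℕ) (F : Type) [NormedAddCommGroup F]
    [InnerProductSpace ℂ F] : Continuous (n_transfer_iota m F) := by
  apply (PiLp.continuous_toLp 2 _).comp
  apply continuous_pi
  intro i
  by_cases hi : i = 0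
  · simp only [hi, if_true]; exact continuous_id
  · simp only [hi, if_false]; exact continuous_const

theorem n_transfer {m : ℕ} (τ : Word m → ℂ) (h : NCState m τ) {E F : Type}
    [NormedAddCommGroup E] [InnerProductSpace ℂ E] [CompleteSpace E] [NormedAddCommGroup F]
    [InnerProductSpace ℂ F] [CompleteSpace F]
    (emb : Word m → E) (ten : Word m → Word m → F) (h1 : IsL2 τ emb) (h2 : IsL2Tensor τ ten)
    (hcl : del.IsClosable)
    (d : Fin (m + 1) → (E →ₗ.[ℂ] F)) (hd : ∀ i, IsDiffQuot emb ten i (d i) ∧ (d i).IsClosable)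
    (grad : E →ₗ.[ℂ] PiLp 2 (fun _ : Fin (m + 1) => F)) (hg : IsGrad emb ten grad)
    (hgc : grad.IsClosable) :
    ∃ Φ : HH →ₗᵢ[ℂ] E, ∀ (u : HH) (k : KK), (u, k) ∈ del.closure.graph →
      ∃ k' : F, ‖k'‖ = ‖k‖ ∧ (Φ u, k') ∈ (d 0).closure.graph ∧
        (∀ i : Fin (m + 1), i ≠ 0 → (Φ u, (0 : F)) ∈ (d i).closure.graph) ∧
        (Φ u, WithLp.toLp 2 fun i => if i = 0 then k' else 0) ∈ grad.closure.graph := by
  set P : Polynomial ℂ →ₗ[ℂ] E := n_transfer_lin fun k => emb (List.replicate k 0) with hP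
  set Q : Polynomial ℂ →ₗ[ℂ] F := n_transfer_lin fun k => dw ten 0 (List.replicate k 0) with hQ
  have hPn : ∀ p, ‖P p‖ = ‖OP.emb p‖ := by
    intro p
    have h3 := (n_phi τ h emb ten h1 h2 p p).1
    have h4 : inner ℂ (P p) (P p) = inner ℂ (OP.emb p) (OP.emb p) := h3
    rw [inner_self_eq_norm_sq_to_K, inner_self_eq_norm_sq_to_K] at h4
    have h5 : ‖P p‖ ^ 2 = ‖OP.emb p‖ ^ 2 := by exact_mod_cast h4
    exact (pow_left_inj₀ (norm_nonneg _) (norm_nonneg _) two_ne_zero).1 h5
  have hQn : ∀ p, ‖Q p‖ = ‖OP.dq p‖ := by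
    intro p
    have h3 := (n_phi τ h emb ten h1 h2 p p).2.1
    have h4 : inner ℂ (Q p) (Q p) = inner ℂ (OP.dq p) (OP.dq p) := h3
    rw [inner_self_eq_norm_sq_to_K, inner_self_eq_norm_sq_to_K] at h4
    have h5 : ‖Q p‖ ^ 2 = ‖OP.dq p‖ ^ 2 := by exact_mod_cast h4
    exact (pow_left_inj₀ (norm_nonneg _) (norm_nonneg _) two_ne_zero).1 h5
  have hdr : DenseRange (OP.emb : Polynomial ℂ → HH) := by
    have := o_dense
    rwa [LinearMap.coe_range] at this
  have hbd : ∃ C : ℝ, ∀ p, ‖P p‖ ≤ C * ‖OP.emb p‖ := ⟨1, fun p => by rw [hPn, one_mul]⟩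
  have hext : ∀ p, P.extendOfNorm OP.emb (OP.emb p) = P p := fun p =>
    LinearMap.extendOfNorm_eq hdr hbd p
  have hnorm : ∀ u : HH, ‖P.extendOfNorm OP.emb u‖ = ‖u‖ := by
    intro u
    refine hdr.induction_on (p := fun u => ‖P.extendOfNorm OP.emb u‖ = ‖u‖) u
      (isClosed_eq (by fun_prop) (by fun_prop)) (fun p => ?_)
    rw [hext, hPn]
  let Φ : HH →ₗᵢ[ℂ] E := ⟨(P.extendOfNorm OP.emb).toLinearMap, hnorm⟩
  have hΦ : ∀ p, Φ (OP.emb p) = P p := hext
  refine ⟨Φ, fun u k huk => ?_⟩
  rw [← hcl.graph_closure_eq_closure_graph] at huk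
  obtain ⟨x, hx, hlim⟩ := mem_closure_iff_seq_limit.1 huk
  have hx' : ∀ n, ∃ p : Polynomial ℂ, x n = (OP.emb p, OP.dq p) := by
    intro n
    have hxn : x n ∈ del.graph := hx n
    rw [LinearPMap.mem_graph_iff] at hxn
    obtain ⟨y, hy1, hy2⟩ := hxn
    obtain ⟨p, hp⟩ := y.2
    obtain ⟨hm, hp2⟩ := o_apply p
    refine ⟨p, Prod.ext ?_ ?_⟩
    · rw [← hy1, ← hp]
    · rw [← hy2, ← hp2]
      congr 1
      exact Subtype.ext hp.symm
  choose p hp using hx'
  have hl1 : Tendsto (fun n => OP.emb (p n)) atTop (𝓝 u) := by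
    have := (continuous_fst.tendsto (u, k)).comp hlim
    refine this.congr fun n => ?_
    simp [hp n]
  have hl2 : Tendsto (fun n => OP.dq (p n)) atTop (𝓝 k) := by
    have := (continuous_snd.tendsto (u, k)).comp hlim
    refine this.congr fun n => ?_
    simp [hp n]
  have hPl : Tendsto (fun n => P (p n)) atTop (𝓝 (Φ u)) := by
    have := (Φ.continuous.tendsto u).comp hl1
    exact this.congr fun n => hΦ (p n)
  have hQc : CauchySeq fun n => Q (p n) := by
    have hc := hl2.cauchySeq
    rw [Metric.cauchySeq_iff] at hc ⊢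
    intro ε hε
    obtain ⟨N, hN⟩ := hc ε hε
    refine ⟨N, fun a ha b hb => ?_⟩
    have := hN a ha b hb
    rw [dist_eq_norm, ← map_sub] at this ⊢
    rwa [hQn]
  obtain ⟨k', hk'⟩ := cauchySeq_tendsto_of_complete hQc
  refine ⟨k', ?_, ?_, ?_, ?_⟩
  · have e1 := hk'.norm
    have e2 := hl2.norm
    have e3 : (fun n => ‖Q (p n)‖) = fun n => ‖OP.dq (p n)‖ := funext fun n => hQn (p n)
    rw [e3] at e1
    exact tendsto_nhds_unique e1 e2
  · rw [← (hd 0).2.graph_closure_eq_closure_graph]
    refine mem_closure_of_tendsto (hPl.prodMk_nhds hk') (Eventually.of_forall fun n => ?_)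
    exact n_transfer_lin_mem _ _ _ (fun k => (hd 0).1.word _) (p n)
  · intro i hi
    rw [← (hd i).2.graph_closure_eq_closure_graph]
    refine mem_closure_of_tendsto (hPl.prodMk_nhds tendsto_const_nhds)
      (Eventually.of_forall fun n => ?_)
    have e1 := n_transfer_lin_mem (d i).graph (fun k => emb (List.replicate k 0))
      (fun k => dw ten i (List.replicate k 0)) (fun k => (hd i).1.word _) (p n)
    have e2 : (fun k => dw ten i (List.replicate k 0)) = fun _ : ℕ => (0 : F) :=
      funext fun k => (n_phi τ h emb ten h1 h2 0 0).2.2 i hi k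
    rw [e2] at e1
    have e3 : n_transfer_lin (fun _ : ℕ => (0 : F)) (p n) = 0 := by
      simp [n_transfer_lin, Polynomial.sum_def]
    rw [e3] at e1
    exact e1
  · rw [← hgc.graph_closure_eq_closure_graph]
    have hil : Tendsto (fun n => n_transfer_iota m F (Q (p n))) atTop
        (𝓝 (n_transfer_iota m F k')) :=
      ((n_transfer_iota_cont m F).tendsto k').comp hk'
    refine mem_closure_of_tendsto (hPl.prodMk_nhds hil) (Eventually.of_forall fun n => ?_)
    have e1 := n_transfer_lin_mem grad.graph (fun k => emb (List.replicate k 0))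
      (fun k => n_transfer_iota m F (dw ten 0 (List.replicate k 0))) (fun k => by
        have e2 := hg.word (List.replicate k 0)
        have e3 : (fun i => dw ten i (List.replicate k 0)) =
            fun i => if i = 0 then dw ten 0 (List.replicate k 0) else 0 := by
          funext i
          by_cases hi : i = 0
          · rw [if_pos hi, hi]
          · rw [if_neg hi]; exact (n_phi τ h emb ten h1 h2 0 0).2.2 i hi k
        rw [e3] at e2
        exact e2) (p n)
    have e4 : n_transfer_lin (fun k => n_transfer_iota m F (dw ten 0 (List.replicate k 0))) (p n) =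
        n_transfer_iota m F (Q (p n)) := by
      simp only [hQ, n_transfer_lin, LinearMap.coe_mk, AddHom.coe_mk, Polynomial.sum_def, map_sum,
        map_smul]
    rw [e4] at e1
    exact e1

end Pool.Agent.Helper228.NC
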